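import Pool.Agent.Y535.PEG.StmA

/-! Project PEG: the winding around a rectangle is the sum of the local windings. -/

set_option autoImplicit false
open Complex Set Topology Metric

namespace Pool.Agent.Y672.PEG

open Pool.Agent.H763R2.An Pool.Agent.Y535.PEG

open Classical in
/-- the winding around a rectangle is the sum of the local windings -/
theorem wdz : S_Z := by
  intro G hG Z ι hloc
  suffices H : ∀ n : ℕ, ∀ a b c d : ℝ, Bd G a b c d →
      (∀ x ∈ Icc a b, ∀ y ∈ Icc c d, G x y = 0 → (x, y) ∈ Z) →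
      (Z.filter (InR a b c d)).card = n →
      Wd G a b c d = ((∑ z ∈ Z.filter (InR a b c d), ι z : ℤ) : ℂ) * (2 * Real.pi * I) from
    fun a b c d B hZ => H _ a b c d B hZ rfl
  intro n
  induction n using Nat.strong_induction_on with
  | _ n ih =>
  intro a b c d B hZ hn
  rcases Nat.lt_or_ge 1 n with h1 | h1
  · -- two zeros
    rw [← hn, Finset.one_lt_card] at h1
    obtain ⟨z1, hz1, z2, hz2, hne⟩ := h1
    -- cut in the first coordinate
    have cutx : ∀ z1 ∈ Z.filter (InR a b c d), ∀ z2 ∈ Z.filter (InR a b c d), z1.1 < z2.1 →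
        Wd G a b c d = ((∑ z ∈ Z.filter (InR a b c d), ι z : ℤ) : ℂ) * (2 * Real.pi * I) := by
      intro z1 hz1 z2 hz2 hlt
      obtain ⟨e, he, he'⟩ := (Ioo_infinite hlt).exists_notMem_finset (Z.image Prod.fst)
      rw [Finset.mem_filter] at hz1 hz2
      have hae : a < e := lt_trans hz1.2.1.1 he.1
      have heb : e < b := lt_trans he.2 hz2.2.1.2
      have hGe : ∀ y ∈ Icc c d, G e y ≠ 0 := fun y hy h =>
        he' (Finset.mem_image.2 ⟨(e, y), hZ e ⟨hae.le, heb.le⟩ y hy h, rfl⟩)
      have B1 : Bd G a e c d := ⟨hae.le, B.cd, fun x hx => B.h1 x ⟨hx.1, hx.2.trans heb.le⟩,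
        fun x hx => B.h2 x ⟨hx.1, hx.2.trans heb.le⟩, B.h3, hGe⟩
      have B2 : Bd G e b c d := ⟨heb.le, B.cd, fun x hx => B.h1 x ⟨hae.le.trans hx.1, hx.2⟩,
        fun x hx => B.h2 x ⟨hae.le.trans hx.1, hx.2⟩, hGe, B.h4⟩
      have hun : Z.filter (InR a b c d) = Z.filter (InR a e c d) ∪ Z.filter (InR e b c d) := by
        ext z
        simp only [Finset.mem_union, Finset.mem_filter]
        constructor
        · rintro ⟨hz, ⟨g1, g2⟩, g3⟩
          rcases lt_trichotomy z.1 e with h | h | h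
          · exact Or.inl ⟨hz, ⟨g1, h⟩, g3⟩
          · exact absurd (Finset.mem_image.2 ⟨z, hz, h⟩) he'
          · exact Or.inr ⟨hz, ⟨h, g2⟩, g3⟩
        · rintro (⟨hz, ⟨g1, g2⟩, g3⟩ | ⟨hz, ⟨g1, g2⟩, g3⟩)
          · exact ⟨hz, ⟨g1, g2.trans heb⟩, g3⟩
          · exact ⟨hz, ⟨hae.trans g1, g2⟩, g3⟩
      have hdis : Disjoint (Z.filter (InR a e c d)) (Z.filter (InR e b c d)) := by
        rw [Finset.disjoint_left]
        intro z h h'
        rw [Finset.mem_filter] at h h'
        exact absurd h.2.1.2 (not_lt.2 h'.2.1.1.le)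
      have c1 : (Z.filter (InR a e c d)).card < n := by
        rw [← hn]
        refine Finset.card_lt_card ⟨?_, fun h => ?_⟩
        · rw [hun]; exact Finset.subset_union_left
        · have := h (Finset.mem_filter.2 hz2)
          rw [Finset.mem_filter] at this
          exact absurd this.2.1.2 (not_lt.2 he.2.le)
      have c2 : (Z.filter (InR e b c d)).card < n := by
        rw [← hn]
        refine Finset.card_lt_card ⟨?_, fun h => ?_⟩
        · rw [hun]; exact Finset.subset_union_right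
        · have := h (Finset.mem_filter.2 hz1)
          rw [Finset.mem_filter] at this
          exact absurd this.2.1.1 (not_lt.2 he.1.le)
      rw [Wd_cutx hG B hae.le heb.le, hun, Finset.sum_union hdis,
        ih _ c1 a e c d B1 (fun x hx y hy => hZ x ⟨hx.1, hx.2.trans heb.le⟩ y hy) rfl,
        ih _ c2 e b c d B2 (fun x hx y hy => hZ x ⟨hae.le.trans hx.1, hx.2⟩ y hy) rfl]
      push_cast
      ring
    have cuty : ∀ z1 ∈ Z.filter (InR a b c d), ∀ z2 ∈ Z.filter (InR a b c d), z1.2 < z2.2 →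
        Wd G a b c d = ((∑ z ∈ Z.filter (InR a b c d), ι z : ℤ) : ℂ) * (2 * Real.pi * I) := by
      intro z1 hz1 z2 hz2 hlt
      obtain ⟨e, he, he'⟩ := (Ioo_infinite hlt).exists_notMem_finset (Z.image Prod.snd)
      rw [Finset.mem_filter] at hz1 hz2
      have hce : c < e := lt_trans hz1.2.2.1 he.1
      have hed : e < d := lt_trans he.2 hz2.2.2.2
      have hGe : ∀ x ∈ Icc a b, G x e ≠ 0 := fun x hx h =>
        he' (Finset.mem_image.2 ⟨(x, e), hZ x hx e ⟨hce.le, hed.le⟩ h, rfl⟩)
      have B1 : Bd G a b c e := ⟨B.ab, hce.le, B.h1, hGe,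
        fun x hx => B.h3 x ⟨hx.1, hx.2.trans hed.le⟩,
        fun x hx => B.h4 x ⟨hx.1, hx.2.trans hed.le⟩⟩
      have B2 : Bd G a b e d := ⟨B.ab, hed.le, hGe, B.h2,
        fun x hx => B.h3 x ⟨hce.le.trans hx.1, hx.2⟩,
        fun x hx => B.h4 x ⟨hce.le.trans hx.1, hx.2⟩⟩
      have hun : Z.filter (InR a b c d) = Z.filter (InR a b c e) ∪ Z.filter (InR a b e d) := by
        ext z
        simp only [Finset.mem_union, Finset.mem_filter]
        constructor
        · rintro ⟨hz, g3, ⟨g1, g2⟩⟩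
          rcases lt_trichotomy z.2 e with h | h | h
          · exact Or.inl ⟨hz, g3, ⟨g1, h⟩⟩
          · exact absurd (Finset.mem_image.2 ⟨z, hz, h⟩) he'
          · exact Or.inr ⟨hz, g3, ⟨h, g2⟩⟩
        · rintro (⟨hz, g3, ⟨g1, g2⟩⟩ | ⟨hz, g3, ⟨g1, g2⟩⟩)
          · exact ⟨hz, g3, ⟨g1, g2.trans hed⟩⟩
          · exact ⟨hz, g3, ⟨hce.trans g1, g2⟩⟩
      have hdis : Disjoint (Z.filter (InR a b c e)) (Z.filter (InR a b e d)) := by
        rw [Finset.disjoint_left]
        intro z h h'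
        rw [Finset.mem_filter] at h h'
        exact absurd h.2.2.2 (not_lt.2 h'.2.2.1.le)
      have c1 : (Z.filter (InR a b c e)).card < n := by
        rw [← hn]
        refine Finset.card_lt_card ⟨?_, fun h => ?_⟩
        · rw [hun]; exact Finset.subset_union_left
        · have := h (Finset.mem_filter.2 hz2)
          rw [Finset.mem_filter] at this
          exact absurd this.2.2.2 (not_lt.2 he.2.le)
      have c2 : (Z.filter (InR a b e d)).card < n := by
        rw [← hn]
        refine Finset.card_lt_card ⟨?_, fun h => ?_⟩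
        · rw [hun]; exact Finset.subset_union_right
        · have := h (Finset.mem_filter.2 hz1)
          rw [Finset.mem_filter] at this
          exact absurd this.2.2.1 (not_lt.2 he.1.le)
      rw [Wd_cuty hG B hce.le hed.le, hun, Finset.sum_union hdis,
        ih _ c1 a b c e B1 (fun x hx y hy => hZ x hx y ⟨hy.1, hy.2.trans hed.le⟩) rfl,
        ih _ c2 a b e d B2 (fun x hx y hy => hZ x hx y ⟨hce.le.trans hy.1, hy.2⟩) rfl]
      push_cast
      ring
    rcases lt_trichotomy z1.1 z2.1 with h | h | h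
    · exact cutx z1 hz1 z2 hz2 h
    · rcases lt_trichotomy z1.2 z2.2 with h' | h' | h'
      · exact cuty z1 hz1 z2 hz2 h'
      · exact absurd (Prod.ext h h') hne
      · exact cuty z2 hz2 z1 hz1 h'
    · exact cutx z2 hz2 z1 hz1 h
  -- zeros are interior
  have hint : ∀ x ∈ Icc a b, ∀ y ∈ Icc c d, G x y = 0 → (x, y) ∈ Z.filter (InR a b c d) := by
    intro x hx y hy h0
    rw [Finset.mem_filter]
    refine ⟨hZ x hx y hy h0, ⟨lt_of_le_of_ne hx.1 ?_, lt_of_le_of_ne hx.2 ?_⟩,
      ⟨lt_of_le_of_ne hy.1 ?_, lt_of_le_of_ne hy.2 ?_⟩⟩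
    · rintro rfl; exact B.h3 y hy h0
    · rintro rfl; exact B.h4 y hy h0
    · rintro rfl; exact B.h1 x hx h0
    · rintro rfl; exact B.h2 x hx h0
  rcases Nat.eq_zero_or_pos n with h0 | h0
  · rw [h0, Finset.card_eq_zero] at hn
    rw [hn, Finset.sum_empty, Wd_zero hG B.ab B.cd (fun x hx y hy h => by
      have := hint x hx y hy h
      rw [hn] at this
      simp at this)]
    simp
  · have h2 : n = 1 := by omega
    rw [h2, Finset.card_eq_one] at hn
    obtain ⟨z, hz⟩ := hn
    have hzm : z ∈ Z.filter (InR a b c d) := by rw [hz]; exact Finset.mem_singleton_self z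
    rw [hz, Finset.sum_singleton]
    rw [Finset.mem_filter] at hzm
    obtain ⟨hzZ, ⟨a1, b1⟩, ⟨c1, d1⟩⟩ := hzm
    obtain ⟨r0, hr0, hs⟩ := hloc z hzZ
    set r := min (r0 / 2) (min (min ((z.1 - a) / 2) ((b - z.1) / 2))
      (min ((z.2 - c) / 2) ((d - z.2) / 2))) with hr
    have hrp : 0 < r := by
      refine lt_min (by positivity) (lt_min (lt_min ?_ ?_) (lt_min ?_ ?_)) <;> linarith
    have r1 : r ≤ r0 / 2 := min_le_left _ _
    have r2 : r ≤ (z.1 - a) / 2 :=
      (min_le_right _ _).trans ((min_le_left _ _).trans (min_le_left _ _))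
    have r3 : r ≤ (b - z.1) / 2 :=
      (min_le_right _ _).trans ((min_le_left _ _).trans (min_le_right _ _))
    have r4 : r ≤ (z.2 - c) / 2 :=
      (min_le_right _ _).trans ((min_le_right _ _).trans (min_le_left _ _))
    have r5 : r ≤ (d - z.2) / 2 :=
      (min_le_right _ _).trans ((min_le_right _ _).trans (min_le_right _ _))
    have hnz : ∀ x ∈ Icc a b, ∀ y ∈ Icc c d, (x, y) ≠ z → G x y ≠ 0 := by
      intro x hx y hy hne h0
      have := hint x hx y hy h0
      rw [hz, Finset.mem_singleton] at this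
      exact hne this
    have n1 : ∀ x y : ℝ, x ≠ z.1 → (x, y) ≠ z := fun x y h h' => h (by rw [← h'])
    have n2 : ∀ x y : ℝ, y ≠ z.2 → (x, y) ≠ z := fun x y h h' => h (by rw [← h'])
    have Bm : Bd G (z.1 - r) (z.1 + r) c d := ⟨by linarith, B.cd,
      fun x hx => B.h1 x ⟨by linarith [hx.1], by linarith [hx.2]⟩,
      fun x hx => B.h2 x ⟨by linarith [hx.1], by linarith [hx.2]⟩,
      fun y hy => hnz _ ⟨by linarith, by linarith⟩ y hy (n1 _ _ (by linarith)),
      fun y hy => hnz _ ⟨by linarith, by linarith⟩ y hy (n1 _ _ (by linarith))⟩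
    have Br : Bd G (z.1 - r) b c d := ⟨by linarith, B.cd,
      fun x hx => B.h1 x ⟨by linarith [hx.1], hx.2⟩,
      fun x hx => B.h2 x ⟨by linarith [hx.1], hx.2⟩, Bm.h3, B.h4⟩
    have Bt : Bd G (z.1 - r) (z.1 + r) (z.2 - r) d := ⟨by linarith, by linarith,
      fun x hx => hnz x ⟨by linarith [hx.1], by linarith [hx.2]⟩ _ ⟨by linarith, by linarith⟩
        (n2 _ _ (by linarith)), Bm.h2,
      fun y hy => Bm.h3 y ⟨by linarith [hy.1], hy.2⟩,
      fun y hy => Bm.h4 y ⟨by linarith [hy.1], hy.2⟩⟩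
    have Bb : Bd G (z.1 - r) (z.1 + r) (z.2 - r) (z.2 + r) := ⟨by linarith, by linarith,
      Bt.h1, fun x hx => hnz x ⟨by linarith [hx.1], by linarith [hx.2]⟩ _
        ⟨by linarith, by linarith⟩ (n2 _ _ (by linarith)),
      fun y hy => Bm.h3 y ⟨by linarith [hy.1], by linarith [hy.2]⟩,
      fun y hy => Bm.h4 y ⟨by linarith [hy.1], by linarith [hy.2]⟩⟩
    rw [Wd_cutx hG B (e := z.1 - r) (by linarith) (by linarith),
      Wd_cutx hG Br (e := z.1 + r) (by linarith) (by linarith),
      Wd_cuty hG Bm (e := z.2 - r) (by linarith) (by linarith),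
      Wd_cuty hG Bt (e := z.2 + r) (by linarith) (by linarith),
      Wd_zero hG (a := a) (b := z.1 - r) (by linarith) B.cd (fun x hx y hy =>
        hnz x ⟨hx.1, by linarith [hx.2]⟩ y hy (n1 _ _ (by linarith [hx.2]))),
      Wd_zero hG (a := z.1 + r) (b := b) (by linarith) B.cd (fun x hx y hy =>
        hnz x ⟨by linarith [hx.1], hx.2⟩ y hy (n1 _ _ (by linarith [hx.1]))),
      Wd_zero hG (c := c) (d := z.2 - r) Bm.ab (by linarith) (fun x hx y hy =>
        hnz x ⟨by linarith [hx.1], by linarith [hx.2]⟩ y ⟨hy.1, by linarith [hy.2]⟩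
          (n2 _ _ (by linarith [hy.2]))),
      Wd_zero hG (c := z.2 + r) (d := d) Bm.ab (by linarith) (fun x hx y hy =>
        hnz x ⟨by linarith [hx.1], by linarith [hx.2]⟩ y ⟨by linarith [hy.1], hy.2⟩
          (n2 _ _ (by linarith [hy.1]))),
      zero_add, zero_add, add_zero, add_zero]
    exact hs r hrp (r1.trans (by linarith))

end Pool.Agent.Y672.PEG
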